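import Pool.Agent.N522.CL.Defs

/-!
# MP_bf5a8d_nt: products, restriction of scalars and reduction to absolutely simple groups
-/

open Pool.Agent.N522.CL

/-- Q1 for `G × H` with `H` a torus is equivalent to Q1 for `G`; and Q1 for all products of tori,
adjoint and simply connected groups is equivalent to Q1 for the absolutely simple groups that are
adjoint or simply connected, over all finite extensions of `ℚ_p`. -/
theorem Pool.Agent.Results.MP_bf5a8d_nt.AbsolutelySimple.result :
    ∀ T : Theory, Facts T →
      (∀ (K : T.Fld) (G H : T.Grp K), T.Torus H → (Holds (T.prod [G, H]) ↔ Holds G)) ∧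
      ((∀ (K : T.Fld) (G : T.Grp K), T.Split G → Holds G) ↔
        ∀ (K : T.Fld) (G : T.Grp K), T.Simple G → Holds G) :=
  fun _ F => ⟨fun _ G H hH => torus_factor F G H hH, split_iff F⟩
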