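import Pool.Agent.N522.LC.Defs

/-!
# MP_7428c0_nt: full categorical local Langlands functors on all blocks for a class of groups
-/

open Pool.Agent.N522.LC

/-- The class of quasi-split groups for which Q1 holds contains tori and is closed under products and
restriction of scalars; so Q1 holds on all blocks for all groups obtained in this way from groups
with a weak generic supercuspidal correspondence and only generic supercuspidals, in particular from
`GL_n`, `PGL_n` and tori over all finite separable extensions. -/
theorem Pool.Agent.Results.MP_7428c0_nt.AllBlocks.result :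
    ∀ T : Theory, Facts T →
      (∀ P : ∀ F : T.Fld, T.Grp F → Prop, (∀ (F : T.Fld) (G : T.Grp F), P F G → T.Holds G) →
        ∀ (F : T.Fld) (G : T.Grp F), Gen P G → T.Holds G) ∧
      (∀ (F : T.Fld) (G : T.Grp F), Gen (fun _ H => T.Generic H) G → T.Holds G) ∧
      ∀ (F : T.Fld) (G : T.Grp F), Gen (fun _ H => T.Lin H) G → T.Holds G :=
  fun _ F => ⟨fun P h _ G hG => holds_of_gen F P h G hG,
    fun _ G hG => holds_of_gen F _ (fun K H h => F.generic K H h) G hG,
    fun _ G hG => holds_of_lin F G hG⟩
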