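import Pool.Agent.N522.FK.Defs

/-!
# MP_89a3f8_ag: the non-pseudo-effective case implies termination for all klt pairs
-/

open Pool.Agent.N522.FK

/-- Q1 in dimension `n + 1` implies that all sequences of flips of `ℚ`-factorial klt pairs of
dimension `n` terminate, pseudo-effective or not.  Hence Q1 in all dimensions is equivalent to the
termination of all flips of `ℚ`-factorial klt pairs in all dimensions. -/
theorem Pool.Agent.Results.MP_89a3f8_ag.AllKltPairs.result :
    ∀ T : Theory, Facts T →
      (∀ n : ℕ, Q1 T (n + 1) → AllTerm T n) ∧ ((∀ n : ℕ, Q1 T n) ↔ ∀ n : ℕ, AllTerm T n) :=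
  fun _ F => ⟨allTerm_of_q1 F, fun h n => allTerm_of_q1 F n (h (n + 1)),
    fun h n P hP _ => h n P hP⟩
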