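import Pool.Agent.N522.TF.Defs

/-!
# MP_e120ef_ag: a class of varieties for which Q1 holds
-/

open Pool.Agent.N522.TF

/-- Q1 is invariant under finite étale covers in both directions and closed under products and
projective bundles; varieties with a finite étale cover whose Albanese morphism is not surjective
are not special; hence Q1 holds on the class generated from the known cases. -/
theorem Pool.Agent.Results.MP_e120ef_ag.ClosedClass.result :
    ∀ T : Theory, Facts T →
      (∀ Y X : T.Var, T.Et Y X → (Q1 Y ↔ Q1 X)) ∧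
      (∀ X Y : T.Var, Q1 X → Q1 Y → Q1 (T.prod X Y)) ∧
      (∀ P X : T.Var, T.PBun P X → Q1 X → Q1 P) ∧
      (∀ Y X : T.Var, T.Et Y X → ¬ T.AlbSurj Y → ¬ T.Special X) ∧
      (∀ X : T.Var, Gen T X → Q1 X) :=
  fun _ F => ⟨q1_et F, q1_prod F, q1_pbun F, fun Y X h hY => (q1_alb F Y X h hY).1, q1_gen F⟩
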