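import Pool.Agent.N522.GM.Defs

/-!
# MP_274aea_ag: Gushel-Mukai fourfolds and cubic fourfolds of discriminant 12
-/

open Pool.Agent.N522.GM

/-- If the very general Gushel-Mukai fourfold is rational, then all smooth Gushel-Mukai fourfolds and
all smooth cubic fourfolds of discriminant 12 are rational; so one irrational smooth cubic fourfold of
discriminant 12 implies that the very general Gushel-Mukai fourfold is irrational. -/
theorem Pool.Agent.Results.MP_274aea_ag.CubicFourfolds.result :
    ∀ T : Theory, Facts T →
      (VeryGeneralRational T.gm → T.gm.Rat = Set.univ ∧ T.cubic.Rat = Set.univ) ∧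
      ((∃ y, y ∉ T.cubic.Rat) → T.gm.Small T.gm.Rat) :=
  fun T F => ⟨fun h => ⟨all_of_veryGeneral T.gm F.gm h, cubic_rational F h⟩, gm_irrational F⟩
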