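import Pool.Agent.N522.Sst.IsoFin

/-!
# Algebraic classes and Tate classes on varieties dominated by products of varieties which degenerate
simultaneously

Let `W` be a Weil cohomology theory with algebraically closed coefficients (étale cohomology with
coefficients in the closure of `ℚ_ℓ`) on a class of smooth proper varieties over a field `k` of any
characteristic (the algebraic closure of a finitely generated field `F`), and let the group `Γ` (the
Galois group of `F`) act on the cohomology of the varieties under consideration; `χ` is the action on
the Tate twists. A *Tate class* of degree `2 j` is an element of `H^(2j)` which is multiplied by
`χ(g) ^ j` by all `g` in a subgroup of finite index (an element of `H^(2j)(j)` invariant under an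
open subgroup).

Let `X_i` and `Y_b` be finitely many varieties of odd dimension for which numerical and homological
equivalence coincide (for the `X_i`: also for their powers) and whose transcendental cohomology `T(X_i)`,
`T(Y_b)` (the orthogonal complement of all algebraic classes; `H^1` for curves) is concentrated in the
middle degree; the `Y_b` have the same dimension `d`. Let `Z` be an arbitrary variety and `Z₁` the
product of `Z` with arbitrary powers of the `Y_b`. Assume:

* **(irreducible)** `T(X_i)` is irreducible under all subgroups of finite index of `Γ`, for every `i`;
* **(distinct)** for `i ≠ j` the representations `T(X_i)` and `T(X_j)` are not isomorphic up to scalars;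
* **(small defects)** let `N` be the set of the `g ∈ Γ` with `χ(g) = 1` which act trivially on the
  cohomology of `Z` and with `(g - 1) ^ 2 = 0` on **all** `T(X_j)` and `T(Y_b)`. For every `i` some `g ∈ N`
  has defects on `T(X_i)` without a common prime factor, or the defect two; here the defects of `g` are
  the rank of `g - 1` on `T(X_i)` and the multiplicities of the nonzero eigenvalues of
  `(g - 1) (g' - 1)` on `T(X_i)`, for `g' ∈ N`. (Or: the conjugates of some `g ∈ N` act irreducibly on
  `T(X_i)` and the defects of all elements of `N` have no common prime factor.)
* **(comparison of ranks)** for every `i` there is an element of `N` whose rank on `T(X_i)` (the rank of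
  `g - 1`) is larger than the sum of its ranks on all the `T(Y_b)`.

The elements of `N` are, for instance, the elements of the inertia groups at the places `v` of `F` at
which `Z` has good reduction and the curves `X_j`, `Y_b` have stable reduction; **all `X_j` and `Y_b` may
have bad reduction at the same places**; nothing is assumed on the isogeny factors of the `Y_b`, which may
also be isogenous to each other. If there are no `Y_b` the last condition holds automatically.

Let `T` be the product of `Z₁` with arbitrary powers of the `X_i`, and suppose that the algebraic classes
on these products are semi-invariant in the obvious sense (`GaloisVar`, a formal property of the Galois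
action). Then the following are equivalent:

* the Tate conjecture holds for `Z₁`, and numerical and homological equivalence coincide for `Z₁`;
* for every variety `B` which is dominated by `T` (there is a morphism `g : T → B`, compatible with the
  action, such that `1` is the direct image of a combination of algebraic classes) the Tate conjecture
  holds, for cycles of all codimensions, and numerical and homological equivalence coincide.

In this case for all these varieties `B` and all `j` the `ℚ`-vector space `A^j(B)` of the algebraic
classes of codimension `j` has finite dimension and **the natural map from `A^j(B) ⊗ K` to the space of
the Tate classes is an isomorphism** (injective and surjective): a basis of `A^j(B)` over `ℚ` is a basis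
of the space of the Tate classes over `K`. Moreover the Tate conjecture holds for all direct factors of
the cohomology of `B` (for all motives cut out of `B`): every potentially invariant element is the
image of an algebraic class.

In particular this holds for `T` itself, where `Z₁` is a point, a curve, or a surface or an abelian
variety for which the Tate conjecture is known. (The starting results `MP_3703a7_ag.SmallRankProducts`
and `TateConjecture` for nodal families treat elements of `Γ` which act nontrivially on **one** of the
factors only, and of rank at most two.)

Proof. Let `L` be the Lie algebra of the operators on the sum of the `T(X_i)` which kill all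
multilinear maps from the `T(X_i)` to the cohomology of `Z₁` which are equivariant under a
subgroup of finite index. By the comparison of ranks and the theory of extremal elements it
contains the symplectic Lie algebra of every `T(X_i)`. By the first fundamental theorem the Tate
classes on the tower are combinations of products of algebraic classes on the powers of the `X_i` and
Tate classes on `Z₁`; similarly for algebraic classes. If a combination `c` of algebraic classes on `B`
is orthogonal to all algebraic classes, then so is `g^* c`, so `g^* c = 0`, and `c = g_*(w g^* c) = 0`, if
`g_* w = 1`; the Tate classes on `B` are direct images of Tate classes on `T`. The natural map is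
injective: if the algebraic class `a` is the combination `∑ c_i b_i` of algebraic classes with
coefficients in `K`, and `π : K → ℚ` is a linear map with `π(1) = 1`, then `a - ∑ π(c_i) b_i` is an
algebraic class which is numerically trivial, as the intersection numbers are rational.
-/

universe u

namespace Pool.Agent.Results.MP_0fca13_ag.DominatedBySemistable

open Pool.Agent.H914 Pool.Agent.H281R3.HT Pool.Agent.TH125.Gal Pool.Agent.V11219.Min
  Pool.Agent.V11219.Cls Pool.Agent.N522.Sst

/-- **Algebraic classes and Tate classes on varieties dominated by products of varieties which degenerate
simultaneously.** -/
theorem result {k : Type u} [Field k] {𝒱 : VarClass k} {ops : CycleOps 𝒱}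
    (W : WeilCohomology.{u, 0} ops) [IsAlgClosed W.K] {Γ : Type} [Group Γ] (χ : CharOf W Γ)
    {ι β : Type} [Finite ι] [Fintype β] (X : ι → GVar W Γ) (Y : β → GVar W Γ) (d : ℕ)
    (Z : GVar W Γ) (h : FamilyOver χ X Y d Z) (hD : ∀ i, PowersHomEqNum (X i)) (S' : Set β)
    (Z₁ : GVar W Γ) (hZ : Tower Y Z S' Z₁) (hs : ∀ S A, Tower X Z₁ S A → GaloisVar χ A)
    (S : Set ι) (T : GVar W Γ) (hT : Tower X Z₁ S T) :
    ((∀ B, Dom T B → TateIn χ (algSpan W) B ∧ HomEqNum W B.X) ↔
        TateIn χ (algSpan W) Z₁ ∧ HomEqNum W Z₁.X) ∧
      (TateIn χ (algSpan W) Z₁ → HomEqNum W Z₁.X → ∀ B, Dom T B →
        TateIso χ B ∧ FactorsTate χ (algSpan W) B) :=
  iso_over h hD hZ hs hT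

end Pool.Agent.Results.MP_0fca13_ag.DominatedBySemistable
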