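import Pool.Agent.V11219.LocStd

/-!
# The standard conjecture of Hodge type for products of varieties with finite inertia

Let `W` be a Weil cohomology theory with algebraically closed coefficients on a class of smooth
proper varieties over a field `k` of any characteristic, and `G` a class of varieties, closed under
products, with an action of a group `Γ` with the formal properties of a Galois action (the example:
varieties over a subfield `F` of the algebraically closed field `k`, and the Galois group of `F`;
`χ` is the action on the Tate twists).

Let `X_i` be varieties of odd dimension in `G`, with divisors `D_i` which satisfy the hard Lefschetz
theorem and the standard conjectures of Lefschetz and of Hodge type (for example curves), and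
whose transcendental cohomology `T_i` (the orthogonal complement of all algebraic classes; for curves
`T_i = H^1(X_i)`) is concentrated in the middle degree and irreducible under all subgroups of finite
index of `Γ`. For every `i` let there be one element `g_i` of `Γ` with `χ(g_i) = 1` of one of the
following kinds.

* **(finite order)** `g_i` acts on `T_i` with finite order, and its eigenvalues are *isolated* with
  respect to a group `Λ` of numbers which contains all eigenvalues of `g_i` on the cohomology of `Z` and
  of the `X_j` with `j ≠ i`: the eigenvalues on `T_i` are divided into two nonempty sets `S` and `S'`, both
  stable under `α ↦ α⁻¹`, such that for `α` in `S` and `β` in `S'` the number `β / α` is not in `Λ`, at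
  least one of `α`, `β` has multiplicity one, `β / α` is the quotient of no other pair of eigenvalues
  except the dual pair, and geometric progressions of length three with the quotient `β / α` are
  self-dual, with outer terms of multiplicity one. In this case let some element of `Γ` (a
  Frobenius element) have two eigenvalues on `T_i` whose quotient is not a root of unity. Example:
  the eigenvalues are `1` with multiplicity `2 g - 2` and `ζ`, `ζ⁻¹`, where `ζ` is a root of unity of
  order at least four which is not in `Λ`; for instance an element of the inertia group at a
  place at which the curve `X_i` acquires a cusp `y ^ 2 = x ^ 3 + t` (and has potentially good
  reduction; `ζ` has order six). **The other factors may have bad reduction at the same place**,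
  if only `ζ` does not belong to the group generated by the eigenvalues of the inertia on them.
* **(unipotent)** `g_i` acts trivially on the cohomology of `Z` and of the `X_j` with `j ≠ i`, and on `T_i`
  it satisfies `(g_i - 1) ^ 2 = 0`, and the defects of `g_i` have no common prime factor or contain
  the number two; here the defects are the rank of `g_i - 1` on `T_i` and the multiplicities of the
  nonzero eigenvalues of `(g_i - 1) (g' - 1)` on `T_i`, for the elements `g'` with the same properties
  (for example for conjugates of `g_i`).

If `Z`, with the divisor `E`, satisfies the hard Lefschetz theorem and the standard conjectures of
Lefschetz and of Hodge type (for instance if `Z` is a point, a curve or a surface), then **the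
standard conjecture of Hodge type and the conjecture D hold for the product of `Z` with arbitrary
powers of the `X_i`**, with the sum of the pull-backs of the divisors.

Proof. Let `L` be the Lie algebra of the operators on `T = T_i` which kill all the multilinear maps
from `T` to the cohomology of the other factors which are equivariant under some subgroup of finite
index. In the first case the Jordan decomposition of the Frobenius element and an additive function
on the group generated by its eigenvalues give an operator `Y` on `T`, not a scalar, with an
operator `Y'` on the cohomology of the other factors, such that the pair is compatible with all these
multilinear maps; the component of `Y` for the eigenvalue `β / α` of the conjugation by `g_i` is in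
`L`, as `β / α` is no quotient of eigenvalues on the other factors; since the quotient is isolated it is
an element of rank at most two of a simple form, and with the irreducibility one obtains an element of
rank one. In the second case `L` contains the logarithms of the conjugates of `g_i`, and the theory of
extremal elements is used. In both cases `L` is the whole symplectic Lie algebra. By the first
fundamental theorem the algebraic classes on the product are combinations of products of algebraic
classes of the power of `X_i` and classes of the other factor.
Those of the powers of `X_i` are generated by algebraic classes of the factors and the transcendental
parts of the diagonals of pairs of factors, which are orthogonal to the other classes of the square and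
have a self-intersection of the right sign.
-/

universe u

namespace Pool.Agent.Results.MP_ffcd14_ag.FiniteInertiaProducts

open Pool.Agent.H914 Pool.Agent.H281R3.HT Pool.Agent.TH125.Gal Pool.Agent.V11219.Loc

/-- **The standard conjecture of Hodge type for products of powers of varieties with finite or
unipotent inertia of the given types.** -/
theorem result {k : Type u} [Field k] {𝒱 : VarClass k} {ops : CycleOps 𝒱}
    (W : WeilCohomology.{u, 0} ops) [IsAlgClosed W.K] {Γ : Type} [Group Γ] (χ : Γ →* W.Kˣ)
    (G : Set (GVar W Γ)) {ι : Type} (X : ι → GVar W Γ) (D : ∀ i, (X i).X.Cycles)
    (Z : GVar W Γ) (h : LocalSystem χ G X D Z) (E : Z.X.Cycles) (hE : IsPolarization W Z.X E)
    (L : List (ι × ℕ)) (hL : (L.map Prod.fst).Nodup) :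
    HodgeType W (nodalTower X D Z E L).X (nodalTower X D Z E L).D ∧
      HomEqNum W (nodalTower X D Z E L).X :=
  hodge_local h hE L hL

end Pool.Agent.Results.MP_ffcd14_ag.FiniteInertiaProducts
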