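import Pool.Agent.N522.WS.Defs

/-!
# MP_cab3fc_nt: solvable base change and reduction to representations in good position
-/

open Pool.Agent.N522.WS

/-- Fix `p ≥ 7`. For representations with non-solvable projective image, modularity over `F` is
equivalent to modularity over any solvable totally real extension; and Q1 for `p` is equivalent to its
case of non-solvable projective image, cyclotomic determinant, no ramification outside `p`, trivial
restriction to the decomposition groups at `p` and `N ∣ [F : ℚ]`, for any `N > 0`. -/
theorem Pool.Agent.Results.MP_cab3fc_nt.GoodPosition.result :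
    ∀ T : Theory, Facts T →
      (∀ (F F' : T.Fld) (r : T.Rep F) (r' : T.Rep F'), T.Ext F F' → T.Rest r r' → ¬ T.Solv r →
        (T.Mod r ↔ T.Mod r')) ∧
      ∀ N : ℕ, 0 < N → (Q1 T ↔ Q1Good T N) :=
  fun _ H => ⟨invariance H, q1_iff H⟩
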