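import Pool.Agent.X311.Periods
import Pool.Agent.TH504.CB.Point

/-!
# Hodge classes on abelian varieties with many algebraically independent periods or many moduli

Let `A = ℂ ^ g / (ℤ ^ g + Z ℤ ^ g)` be the principally polarized abelian variety with the period matrix
`Z` (symmetric, with positive definite imaginary part), `K` any subfield of `ℂ`, and suppose that `D`
different entries of `Z` are algebraically independent over `K`.

**(1)** There is an abelian subvariety `B` of `A`, with quotient `A / B` of dimension `r`, such that on
each power `A ^ n` **each Hodge class is a combination of wedge products of divisor classes and one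
Hodge class which is pulled back from `(A / B) ^ n`**, and `r` is small: `r ≤ ρ` for all `ρ` with
`4 D > g ^ 2` and `4 D > (ρ + 1) ^ 2 + 2 (g - ρ - 1) (g - ρ)`. If `n r ≤ 3` all Hodge classes on `A ^ n` are
combinations of products of divisor classes, so (Lefschetz) they are algebraic. In particular:

* (`ρ = 3`) if more than the maximum of `g ^ 2 / 4` and `4 + (g - 4) (g - 3) / 2` entries of the period
  matrix of `A` are algebraically independent over `ℚ` then **the Hodge conjecture holds for `A`**;
* (`ρ = 0`) if `4 D > g ^ 2` and `4 D > 1 + 2 (g - 1) g` then `r = 0`: the Hodge conjecture holds for all
  powers of `A`. Moreover (`r = 0`) for every smooth projective variety `Y` whose periods (the entries of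
  the Hodge operator of the cohomology in a rational basis) are in `K` and all `n` each Hodge class on
  `A ^ n × Y` is a sum of products of a combination of products of divisor classes on `A ^ n` and
  a Hodge class on `Y`: the Hodge conjecture for `Y` implies the Hodge conjecture for `A ^ n × Y`.

This is a statement on every single abelian variety: no very general point, no family and no
condition on the endomorphisms, and `A` need not be simple. The bounds are sharp for the statement
on divisor classes for all even `g` (abelian varieties of Weil type have `g ^ 2 / 4` moduli) and for all
`g ≥ 10` (products of an abelian variety of dimension `g - 4` and a fourfold of Weil type).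

**(2)** The same for families: let `A i` (`i` in a finite set) be holomorphic families of
principally polarized abelian varieties over a connected open subset `U` of `ℂ ^ d`, each with
at least one simple member. There is a set `R` of indices such that for very general `t` in `U` (outside
of the zeros of countably many holomorphic functions which are not zero) each Hodge class on each
product of the `A i (t)`, with any multiplicities, is a combination of wedge products of divisor classes
and one Hodge class which is pulled back from the factors with index in `R`, and of products of
divisor classes if these factors have total dimension at most three. The set `R` is empty if all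
`A i` are moving (one of the ranks of the family is odd, or the centre of the endomorphism algebra is
totally real and one of the ranks is two or there are more than `(g - 1) ^ 2 / 8` moduli); and if `w i` are
positive multiplicities, `G` is the dimension of the product of the `A i ^ (w i)` and `D` is the
rank of the Kodaira-Spencer map of the product of the `A i ^ (w i)` at some point, `4 D > G ^ 2` and
`4 D > (ρ + 1) ^ 2 + 2 (G - ρ - 1) (G - ρ)`, then the product of the `A i ^ (w i)` with `i` in `R`
has dimension at most `ρ`.

(The starting result `MP_e9c0f3_ag.ManyModuliFlat` is on flat classes which are Hodge classes on all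
members of such families.)

The proof of (1): the automorphisms and the derivations of `ℂ` over `K` act on the period matrix, so the
complexified Lie algebra of the Mumford-Tate group of `A` contains the nilpotent operators given by
the derivatives of the period matrix, and by the algebraic independence there are `D` linearly
independent ones. So the dimension of the nilpotent radical of a parabolic subalgebra of the Hodge
Lie algebra is at least `D`. By the classification of such pairs by elementary linear algebra the
Hodge Lie algebra of a simple factor with many such operators is a symplectic algebra over a totally
real field, and these factors are independent of each other and of the others; the first fundamental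
theorem of invariant theory gives the Hodge classes.
-/

namespace Pool.Agent.Results.MP_802513_ag.ManyPeriods

open Module Pool.Agent.H204R3.CM Pool.Agent.W437.HC Pool.Agent.W437.HD Pool.Agent.TH504.VY
  Pool.Agent.TH504.CB Pool.Agent.TH131.GHC

/-- **Hodge classes on abelian varieties with many algebraically independent periods, and on very general
members of families of abelian varieties with many moduli.** -/
theorem result :
    (∀ (g : ℕ) (Z : Matrix (Fin g) (Fin g) ℂ), Z.transpose = Z → (Z.map Complex.im).PosDef →
      ∀ (K : Subfield ℂ) (D : ℕ) (p : Fin D → Fin g × Fin g),
      AlgebraicIndependent K (fun s => Z (p s).1 (p s).2) →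
      ∃ (B : Submodule ℚ (Fin g ⊕ Fin g → ℚ)) (r : ℕ), IsAbelianSubvariety Z B ∧
        finrank ℚ B + 2 * r = 2 * g ∧ SmallQuotient g D r ∧ HodgeClassesFromQuotient Z B ∧
        (∀ n, n * r ≤ 3 → HodgeClassesFromDivisors Z n) ∧
        (r = 0 → ∀ (v : ℕ) (V : Coh v), (∀ a b, V.z a b ∈ K) → ∀ n, HodgeClassesOnTimes Z n V)) ∧
    (∀ (ι : Type) [Fintype ι] [DecidableEq ι] (g : ι → ℕ) (d : ℕ) (U : Set (Fin d → ℂ)),
      IsOpen U → IsPreconnected U → U.Nonempty →
      ∀ Z : ∀ i, (Fin d → ℂ) → Matrix (Fin (g i)) (Fin (g i)) ℂ, (∀ i, IsPeriodFamily U (Z i)) →
      ∃ (R : Finset ι) (F : ℕ → (Fin d → ℂ) → ℂ), IsSmallPart U Z R ∧ IsThin U F ∧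
        (∃ t ∈ U, ∀ m, F m t ≠ 0) ∧ ∀ t ∈ U, (∀ m, F m t ≠ 0) →
          HodgeClassesDecompose (fun i => Z i t) R ∧ HodgeClassesDivisorial (fun i => Z i t) R) :=
  ⟨fun _ Z hZ hpos K _ p hp => Pool.Agent.X311.many_periods Z hZ hpos K p hp,
    fun _ _ _ _ _ _ hU hc hne Z hZ => main_point hU hc hne Z hZ⟩

end Pool.Agent.Results.MP_802513_ag.ManyPeriods
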