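import Pool.Agent.N522.IQ.Defs

/-!
# MP_94f623_nt: representations that are invariant under the automorphism of the field
-/

open Pool.Agent.N522.IQ

/-- For `p ≥ 5` unramified in `K`: the conclusion of Q1 holds for `ρ̄` if `ρ̄` is unramified at the
prime dividing the discriminant and extends to a representation of `G_ℚ` with cyclotomic
determinant; equivalently put, for `ρ̄` isomorphic to its conjugate if no extension to `G_ℚ` has
determinant the cyclotomic character times the quadratic character of `K`. -/
theorem Pool.Agent.Results.MP_94f623_nt.InvariantRepresentations.result :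
    ∀ T : Theory, Facts T →
      (∀ (r : T.Rep) (r0 : T.Rep0), T.Unr r → T.Rest r0 r → T.DetCyc r0 → T.Mod r) ∧
      ∀ r : T.Rep, T.Unr r → T.Inv r → (∀ r0, T.Rest r0 r → ¬ T.DetTw r0) → T.Mod r :=
  fun _ F => ⟨fun r r0 h hr hd => mod_of_rest F r h r0 hr hd,
    fun r h hi hn => mod_of_inv F r h hi hn⟩
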