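import Pool.Agent.N522.BC.Defs

/-!
# MP_aa9b81_an: reduction to `SL_n(ℝ)` and compact metrizable spaces with a fixed point
-/

open Pool.Agent.N522.BC

/-- (1) For each connected Lie group it suffices to treat compact metrizable spaces with a fixed
point.  (2) The statement for all spaces passes to closed connected subgroups.  (3) The statement
for all connected linear Lie groups and all spaces is equivalent to the statement for `SL_n(ℝ)` and
compact metrizable spaces with a fixed point, for infinitely many `n`. -/
theorem Pool.Agent.Results.MP_aa9b81_an.LinearGroups.result :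
    ∀ T : Theory, Facts T →
      (∀ G : T.Grp, Q1For G ↔ Q1Cpt G) ∧
      (∀ H G : T.Grp, T.Emb H G → Q1For G → Q1For H) ∧
      ((∀ G : T.Grp, T.Lin G → Q1For G) ↔ ∀ N : ℕ, ∃ n : ℕ, N ≤ n ∧ Q1Cpt (T.SL n)) :=
  fun _ F => ⟨q1For_iff F, fun H G i h => q1_of_emb F H G i h, linear_iff F⟩
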