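import Pool.Agent.N522.AF.Defs

/-!
# MP_de7261_nt: quotients of products of general linear groups; reduction to simply connected
derived group
-/

open Pool.Agent.N522.AF

/-- Q1 holds for all split groups obtained from general linear groups and tori by products and
quotients by central tori, and Q1 for all split groups is equivalent to its case of groups with
simply connected derived group. -/
theorem Pool.Agent.Results.MP_de7261_nt.QuotientsOfLinearGroups.result :
    ∀ T : Theory, Facts T →
      (∀ G : T.Grp, Linear G → T.Holds G) ∧
      ((∀ G : T.Grp, T.Holds G) ↔ ∀ G : T.Grp, T.Sc G → T.Holds G) :=
  fun _ F => ⟨holds_of_linear F, q1_iff F⟩
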