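import Pool.Agent.N522.MU.Defs

/-!
# MP_519cc8_nt: reduction to Iwasawa's conjecture, and residually abelian representations
-/

open Pool.Agent.N522.MU

/-- Q1 for `T` over `L` follows from the finiteness of `H²_Iw` for the Jordan-Hölder constituents of
`T/π`; Q1 is equivalent to Iwasawa's conjecture `μ = 0` for all number fields; and Q1 holds if some
`p`-extension `L'` of an abelian number field with `p`-th roots of unity contains `L` and `T/π` is a
successive extension of trivial modules over `L'`. -/
theorem Pool.Agent.Results.MP_519cc8_nt.ReducesToIwasawaMu.result :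
    ∀ T : Theory, Facts T →
      (∀ D : T.Dat, Dev (fun N => T.Fin N) (T.res D) → T.Holds D) ∧
      (Q1 T ↔ ∀ L : T.Fld, IwasawaMu L) ∧
      ∀ (D : T.Dat) (A L' : T.Fld), T.Abelian A → T.Mu A → T.PExt A L' → T.Sub (T.top D) L' →
        Dev (fun N => N = T.triv L') (T.rest L' (T.res D)) → T.Holds D :=
  fun _ F => ⟨fun D h => (F.criterion D).2 (fin_of_dev F _ h), q1_iff F, holds_of_abelian F⟩
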