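import Pool.Agent.N522.GR.Defs

/-!
# MP_eadad4_nt: reduction to absolutely almost simple simply connected groups
-/

open Pool.Agent.N522.GR

/-- Q1 holds for `G` as soon as it holds for the simple factors (over finite extensions) of the
simply connected cover of the derived group of `G`; hence Q1 is equivalent to its case of absolutely
almost simple simply connected groups over all global function fields. -/
theorem Pool.Agent.Results.MP_eadad4_nt.SimpleGroups.result :
    ∀ T : Theory, Facts T →
      (∀ (k : T.Fld) (G : T.Grp k), (∀ H ∈ T.factors (T.sc G), Q1For H.2) → Q1For G) ∧
      (Q1 T ↔ Q1Simple T) :=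
  fun _ F => ⟨fun _ G h => q1For_of_factors F G h, q1_iff F⟩
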