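import Pool.Agent.V11219.BsyMain

/-!
# The standard conjecture of Hodge type for products with powers of varieties which degenerate
simultaneously

Let `W` be a Weil cohomology theory with algebraically closed coefficients on a class of smooth
proper varieties over a field `k` of any characteristic (in particular `k` algebraically closed of
positive characteristic), and `G` a class of varieties, closed under products, with an action of a
group `Γ` with the formal properties of a Galois action (the example: varieties over a subfield
`F` of the algebraically closed field `k`, for instance a field of functions in positive
characteristic, and the Galois group of `F`; `χ` is the action on the Tate twists).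

Let `X_i` be finitely many varieties of odd dimension in `G`, with divisors `D_i` which satisfy the
hard Lefschetz theorem and the standard conjectures of Lefschetz and of Hodge type (for example
curves), and whose transcendental cohomology `T_i` (the orthogonal complement of all algebraic
classes; for curves `T_i = H^1(X_i)`) is concentrated in the middle degree and irreducible under all
subgroups of finite index of `Γ`. Assume:

* **(distinct)** for `i ≠ j` the representations `T_i` and `T_j` of `Γ` are not isomorphic up to scalars;
* **(small defects)** let `N` be the set of the `g ∈ Γ` with `χ(g) = 1` which act trivially on the
  cohomology of `Z` and with `(g - 1) ^ 2 = 0` on **all** `T_j`. For every `i` some `g ∈ N` has defects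
  on `T_i` without a common prime factor, or the defect two; here the defects of `g` are the rank of
  `g - 1` on `T_i` and the multiplicities of the nonzero eigenvalues of `(g - 1) (g' - 1)` on `T_i`, for
  `g' ∈ N`. (Or: the conjugates of some `g ∈ N` act irreducibly on `T_i` and the defects of all
  elements of `N` have no common prime factor.)

The elements of `N` are, for instance, the elements of the inertia groups at the places `v` of `F` at
which `Z` has good reduction and the curves `X_j` have stable reduction; **all `X_j` may have bad
reduction at the same places**, and the rank of the local monodromy may be large.

If `Z`, with the divisor `E`, satisfies the hard Lefschetz theorem and the standard conjectures of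
Lefschetz and of Hodge type (for instance if `Z` is a point, a curve or a surface), then **the
standard conjecture of Hodge type and the conjecture D hold for the product of `Z` with arbitrary
powers of the `X_i`**, with the sum of the pull-backs of the divisors.

The kept result `MP_ffcd14_ag.NodalProducts` needs for every `i` an element of `Γ` which acts on `T_i`
by a Picard-Lefschetz formula (rank one) and trivially on all the other `T_j`: so for every factor there
must be a place where it acquires one node, and where **all the other factors have good reduction**. Here
there is no such separation, and the rank may be arbitrary. (Even-dimensional factors are not treated
here; they are in `NodalProducts`.) `MP_ffcd14_ag.MaximalDegenerations` is on varieties of even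
dimension.

Proof. Let `L` be the Lie algebra of the operators on the sum of the `T_i` which kill all multilinear
maps from the `T_i` to the cohomology of `Z` which are equivariant under a subgroup of finite
index. It contains the logarithms of the elements of `N`, which are sums of elements of square zero of
the symplectic Lie algebras. By Goursat's lemma and an argument with extremal elements (the rank
of the elements in the projection to one factor is a multiple of the rank in the natural module of a
simple Lie algebra generated by elements of square zero) it contains the symplectic Lie algebra of
every `T_i`. By the first fundamental theorem the algebraic classes on the tower are
combinations of products of algebraic classes on the powers of the `X_i` and classes on `Z`, and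
those of the powers of `X_i` are generated by algebraic classes of the factors and the transcendental
parts of the diagonals of pairs of factors, which are orthogonal to the other classes of the
square and have the self-intersection `dim T_i > 0` up to the right sign.
-/

universe u

namespace Pool.Agent.Results.MP_361a6f_ag.SimultaneousDegenerations

open Pool.Agent.H914 Pool.Agent.H281R3.HT Pool.Agent.TH125.Gal Pool.Agent.V11219.Min
  Pool.Agent.V11219.Bst

/-- **The standard conjecture of Hodge type for products of varieties with simultaneous semistable
degenerations.** -/
theorem result {k : Type u} [Field k] {𝒱 : VarClass k} {ops : CycleOps 𝒱}
    (W : WeilCohomology.{u, 0} ops) [IsAlgClosed W.K] {Γ : Type} [Group Γ] (χ : CharOf W Γ)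
    (G : Set (GVar W Γ)) {ι : Type} [Finite ι] (X : ι → GVar W Γ) (D : ∀ i, (X i).X.Cycles)
    (Z : GVar W Γ) (h : System χ G X D Z) (E : Z.X.Cycles) (hE : IsPolarization W Z.X E)
    (L : List (ι × ℕ)) (hL : (L.map Prod.fst).Nodup) :
    HodgeType W (nodalTower X D Z E L).X (nodalTower X D Z E L).D ∧
      HomEqNum W (nodalTower X D Z E L).X := by
  classical
  have := Fintype.ofFinite ι
  exact Pool.Agent.V11219.Sst.hodge_sst h.sys hE L hL

end Pool.Agent.Results.MP_361a6f_ag.SimultaneousDegenerations
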