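import Pool.Agent.V11219.BsyMain

/-!
# The conjecture D for varieties dominated by products of varieties which degenerate simultaneously

Let `W` be a Weil cohomology theory with algebraically closed coefficients (for example étale
cohomology with coefficients in the closure of `ℚ_ℓ`) on a class of smooth proper varieties over a
field `k` of any characteristic, and `G` a class of varieties, closed under products, with an action
of a group `Γ` with the formal properties of a Galois action (the example: varieties over a subfield
`F` of the algebraically closed field `k`, and the Galois group of `F`; `χ` is the action on the Tate
twists).

Let `X_i` be finitely many varieties of odd dimension in `G`, with divisors `D_i` which satisfy the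
hard Lefschetz theorem and the standard conjectures of Lefschetz and of Hodge type (for example
curves), and whose transcendental cohomology `T_i` (the orthogonal complement of all algebraic
classes; for curves `T_i = H^1(X_i)`) is concentrated in the middle degree and irreducible under all
subgroups of finite index of `Γ`. Assume:

* **(distinct)** for `i ≠ j` the representations `T_i` and `T_j` of `Γ` are not isomorphic up to scalars;
* **(small defects)** let `N` be the set of the `g ∈ Γ` with `χ(g) = 1` which act trivially on the
  cohomology of `Z` and with `(g - 1) ^ 2 = 0` on **all** `T_j`. For every `i` some `g ∈ N` has defects
  on `T_i` without a common prime factor, or the defect two; here the defects of `g` are the rank of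
  `g - 1` on `T_i` and the multiplicities of the nonzero eigenvalues of `(g - 1) (g' - 1)` on `T_i`, for
  `g' ∈ N`. (Or: the conjugates of some `g ∈ N` act irreducibly on `T_i` and the defects of all
  elements of `N` have no common prime factor.)

The elements of `N` are, for instance, the elements of the inertia groups at the places `v` of `F` at
which `Z` has good reduction and the curves `X_j` have stable reduction; **all `X_j` may have bad
reduction at the same places** (for instance at one single place), and the rank of the local monodromy
(the toric rank) may be large.

Let `T` be the product of `Z` with arbitrary powers of the `X_i`. Then

1. homological and numerical equivalence coincide for `T` **if and only if** they coincide for `Z`; no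
   standard conjecture is assumed for `Z`;
2. if they coincide for `Z` (for instance if `Z` is a point, a curve or a surface), then they coincide
   for every variety `V` which is dominated by `T`, more precisely for which there is a morphism
   `g : T → V` such that `1` is the direct image under `g` of the class of a cycle.

The kept result `MP_f569db_ag.NodalProducts` needs for every `i` an element of `Γ` which acts on `T_i`
by a Picard-Lefschetz formula (rank one) and trivially on all the other `T_j`: so for every factor there
must be a place where it acquires one node, and where **all the other factors have good reduction**. Here
there is no such separation: the same elements may act nontrivially on all factors, and the rank may be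
arbitrary. (Even-dimensional factors are not treated here; they are in `NodalProducts`.)

Proof. Let `L` be the Lie algebra of the operators on the sum of the `T_i` which kill all multilinear
maps from the `T_i` to the cohomology of `Z` which are equivariant under a subgroup of finite
index. It contains the logarithms of the elements of `N`, which are sums of elements of square zero of
the symplectic Lie algebras. By Goursat's lemma and an argument with extremal elements (the rank
of the elements in the projection to one factor is a multiple of the rank in the natural module of a
simple Lie algebra generated by elements of square zero) it contains the symplectic Lie algebra of
every `T_i`. By the first fundamental theorem the algebraic classes on the tower are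
combinations of products of algebraic classes on the powers of the `X_i` and classes on `Z`. By a
theorem on the positivity of the form on classes generated by pairs of factors the algebraic classes of
the powers have an orthogonal rational basis; the components of an algebraic class in this basis are
algebraic classes on the other factor. For the second statement: if a combination `c` of algebraic
classes on `V` is orthogonal to all algebraic classes, then so is `g^* c`, as `tr(b g^* c) = tr(g_* b c)`;
so `g^* c = 0`, and `c = g_*(w g^* c) = 0`, if `g_* w = 1`.
-/

universe u

namespace Pool.Agent.Results.MP_f569db_ag.SimultaneousDegenerations

open Pool.Agent.H914 Pool.Agent.H281R3.HT Pool.Agent.TH125.Gal Pool.Agent.V11219.Min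
  Pool.Agent.V11219.Bst

/-- **The conjecture D for varieties dominated by products of varieties with simultaneous semistable
degenerations.** -/
theorem result {k : Type u} [Field k] {𝒱 : VarClass k} {ops : CycleOps 𝒱}
    (W : WeilCohomology.{u, 0} ops) [IsAlgClosed W.K] {Γ : Type} [Group Γ] (χ : CharOf W Γ)
    (G : Set (GVar W Γ)) {ι : Type} [Finite ι] (X : ι → GVar W Γ) (D : ∀ i, (X i).X.Cycles)
    (Z : GVar W Γ) (h : System χ G X D Z) (E : Z.X.Cycles)
    (L : List (ι × ℕ)) (hL : (L.map Prod.fst).Nodup) :
    (HomEqNum W (nodalTower X D Z E L).X ↔ HomEqNum W Z.X) ∧
      (HomEqNum W Z.X → ∀ (V : 𝒱.Obj) (g : (nodalTower X D Z E L).X ⟶ V), Dominant W g →
        HomEqNum W V) := by
  classical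
  have := Fintype.ofFinite ι
  have h1 := Pool.Agent.V11219.Sst.homEqNum_sst h.sys E L hL
  exact ⟨h1, fun hZ V g hg => homEqNum_of_dominant hg (h1.2 hZ)⟩

end Pool.Agent.Results.MP_f569db_ag.SimultaneousDegenerations
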