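import Pool.Agent.N522.QG.Defs

/-!
# MP_e3793a_ag: virtually solvable monodromy, and reduction to semisimple monodromy groups
-/

open Pool.Agent.N522.QG

/-- (1) Semisimple quasi-geometric flat bundles with virtually solvable monodromy group have finite
monodromy and are geometric.  (2) Q1 follows from (and so is equivalent to) its case of irreducible
flat bundles whose monodromy group has connected semisimple Zariski closure. -/
theorem Pool.Agent.Results.MP_e3793a_ag.SolvableAndSemisimple.result :
    ∀ T : Theory, Facts T →
      (∀ (Y : T.Base) (E : T.FB Y), T.Semisimple E → T.QuasiGeo E → T.VirtSolv E →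
        T.FiniteMon E ∧ T.Geo E) ∧
      (Q1SS T → Q1 T) := by
  intro T F
  exact ⟨fun Y E hS hQ hV => ⟨finite_of_virtSolv F Y E hS hQ hV,
    F.finite_geo Y E (finite_of_virtSolv F Y E hS hQ hV)⟩, q1_of_ss F⟩
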