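import Pool.Agent.N522.BR.Defs

/-!
# MP_07cd05_gt: boundary rigidity of subdomains, and metrics that are analytic near the boundary
-/

open Pool.Agent.N522.BR

/-- Boundary rigidity passes from a simple manifold to the simple manifolds contained in its
interior; and in each dimension all simple metrics are boundary rigid if and only if those are that
are real analytic near the boundary. -/
theorem Pool.Agent.Results.MP_07cd05_gt.SubdomainsAndAnalyticBoundary.result :
    ∀ T : Theory, Facts T →
      (∀ x y : T.Man, T.Sub x y → Rigid y → Rigid x) ∧
      ∀ n : ℕ, (∀ x : T.Man, T.dim x = n → Rigid x) ↔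
        ∀ x : T.Man, T.dim x = n → T.Ana x → Rigid x :=
  fun _ F => ⟨rigid_of_sub F, rigid_iff F⟩
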