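import Pool.Agent.N88.TB.CD

/-!
# MP_6e7c44_mp: unbounded solutions and solutions that become large
-/

open Pool.Agent.N522.TB

/-- Planar three-body problem. (a) In an open set `W` of initial conditions the unbounded solutions are
dense if and only if for every `C` the solutions that reach a mutual distance larger than `C` are
dense. (b) If all solutions from `W` are bounded (for instance if Q1 fails at a relative periodic
solution with neighbourhood `W`), then every nonempty open subset of `W` contains a nonempty open set
of initial conditions whose solutions are uniformly bounded. -/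
theorem Pool.Agent.Results.MP_6e7c44_mp.UniformBounds.result :
    ∀ m : Fin 3 → ℝ, ∀ W : Set (Pos × Pos), W ⊆ Phase →
      ((∀ V ⊆ W, IsOpen V → V.Nonempty → ∃ x ∈ V, Unbounded m x) ↔
        ∀ C : ℝ, ∀ V ⊆ W, IsOpen V → V.Nonempty → ∃ x ∈ V, Reaches m C x) ∧
      ((∀ x ∈ W, ¬ Unbounded m x) → ∀ V ⊆ W, IsOpen V → V.Nonempty →
        ∃ (C : ℝ) (V' : Set (Pos × Pos)), V' ⊆ V ∧ IsOpen V' ∧ V'.Nonempty ∧
          ∀ x ∈ V', ¬ Reaches m C x) :=
  fun m W hP => ⟨dense_iff m (Pool.Agent.N88.TB.continuousDependence m) W hP,
    uniform_of_bounded m (Pool.Agent.N88.TB.continuousDependence m) W hP⟩
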