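import Pool.Agent.N522.PL.Defs

/-!
# MP_305fdd_al: virtual rigidity, relative rigidity, free groups and surface groups
-/

open Pool.Agent.N522.PL

/-- Q1 holds if and only if every lattice has a profinitely rigid subgroup of finite index and
lattices of `PSL(2,ℂ)` are rigid relative to commensurable lattices of isometries; a lattice of
`PSL(2,ℝ)` is rigid as soon as one subgroup of finite index is; all of them are rigid if and only if
for every `d > 0` the free group of rank `d m + 1` is rigid for some `m > 0` and the surface group of
genus `d m + 1` is rigid for some `m > 0`. -/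
theorem Pool.Agent.Results.MP_305fdd_al.VirtualRigidity.result :
    ∀ T : Theory, Facts T →
      (Q1 T ↔ VirtuallyRigid T ∧ RelativelyRigid T) ∧
      (∀ G H : T.Grp, T.LatR G → T.FI H G → Rigid H → Rigid G) ∧
      ((∀ G : T.Grp, T.LatR G → Rigid G) ↔
        ∀ d : ℕ, 0 < d → (∃ m, 0 < m ∧ Rigid (T.free (d * m + 1))) ∧
          ∃ m, 0 < m ∧ Rigid (T.surf (d * m + 1))) :=
  fun _ F => ⟨q1_iff F, rigid_of_fi_R F, fuchsian_iff F⟩
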